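import Pool.Agent.L0h86.JQ.StmA
import Pool.Agent.L0h37.SJ.MNC

/-!
# Project JQ (helper86), module MNCS: the main term
-/

set_option autoImplicit false
set_option linter.all false
set_option maxHeartbeats 2000000

open scoped Classical
open Finset

namespace Pool.Agent.L0h51.JQ

open Pool.Agent.L0h1.SJ Pool.Agent.L0h86.JQ
open Pool.Agent.L0h37.SJ (Bt eqv card_Tu card_Bt card_nonsurj sum_Bt zero_mem_Al inst_free sr_zero
  sr_add abs_sr)

theorem pr_add_constS {J I : Type} [Fintype J] [Fintype I] (y b : J → I → ZMod 2)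
    (c s : I → ZMod 2) (h : ∀ i, ∑ q, b q i = s i) :
    pr (fun q i => y q i + c i) b = pr y b + ∑ i, c i * s i := by
  unfold pr
  simp only [add_mul, sum_add_distrib]
  have : ∑ q, ∑ i, c i * b q i = ∑ i, c i * s i := by
    rw [sum_comm]
    refine sum_congr rfl fun i _ => ?_
    rw [← mul_sum, h i]
  rw [this]

/-- the sum over all elements does not depend on the instance -/
theorem sum_inst {α : Type} (i₁ i₂ : Fintype α) (f : α → ℝ) :
    ∑ c ∈ @Finset.univ α i₁, f c = ∑ c ∈ @Finset.univ α i₂, f c := by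
  rw [Subsingleton.elim i₁ i₂]

/-- the sum over the relations -/
theorem par_sumS (hPAR : S_PAR) {J I : Type} [Fintype J] [Fintype I] (X b : J → I → ZMod 2)
    (s : I → ZMod 2) (hX : Function.Surjective X) (h : ∀ i, ∑ q, b q i = s i) :
    ∑ y ∈ RX X, sr (pr y b) =
      ∑ A ∈ Al I, ∑ c : I → ZMod 2, sr (pr (fun q i => ∑ j, A i j * X q j) b + ∑ i, c i * s i) := by
  rw [hPAR J I X hX (fun y => sr (pr y b))]
  refine sum_congr rfl fun A _ => sum_congr rfl fun c _ => ?_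
  rw [pr_add_constS _ _ c s h]

/-- the number of the constants which do not contribute a form -/
theorem card_lim {t : ℕ} (K : Fin t → ℕ) (sg : Fin t → ZMod 2) :
    ((univ.filter fun c : Ix K → ZMod 2 => (fun i => c i * (sg i.1 + 1)) = 0).card : ℝ) =
      lim sg K := by
  have h1 : (univ.filter fun c : Ix K → ZMod 2 => (fun i => c i * (sg i.1 + 1)) = 0) =
      Fintype.piFinset fun i : Ix K => if sg i.1 = 1 then (univ : Finset (ZMod 2)) else {0} := by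
    ext c
    rw [mem_filter, Fintype.mem_piFinset]
    have e : ∀ i : Ix K, (c i * (sg i.1 + 1) = 0) ↔
        c i ∈ if sg i.1 = 1 then (univ : Finset (ZMod 2)) else {0} := by
      intro i
      have key : ∀ a s : ZMod 2, (a * (s + 1) = 0) ↔
          a ∈ if s = 1 then (univ : Finset (ZMod 2)) else {0} := by decide
      exact key _ _
    constructor
    · rintro ⟨-, h⟩ i
      exact (e i).1 (congrFun h i)
    · intro h
      exact ⟨mem_univ _, funext fun i => (e i).2 (h i)⟩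
  rw [h1, Fintype.card_piFinset]
  push_cast
  unfold lim
  rw [Fintype.prod_sigma]
  refine prod_congr rfl fun l _ => ?_
  by_cases hl : sg l = 1
  · simp only [hl, if_true, card_univ, ZMod.card, prod_const, Fintype.card_fin]
    norm_num
  · simp only [hl, if_false, card_singleton, prod_const, Nat.cast_one, one_pow]

theorem core (hPAR : S_PAR) (hROW : S_ROWS) (hC0 : S_CH0S) (hC1 : S_CH1S) (t n : ℕ)
    (K : Fin t → ℕ) (sg : Fin t → ZMod 2) (ε : ℝ) (hε : 0 < ε) : ∃ C₀ : ℕ, ∀ (U : Fin t → Type)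
  [∀ l, Fintype (U l)] (J : Type) [Fintype J]
  (w : ∀ l, U l ⊕ J → ZMod 2) (uU : ∀ l, U l → ZMod 2) (uJ : J → ZMod 2)
  (N : ∀ l, U l ⊕ J → U l ⊕ J → ZMod 2) (NJ : J → J → ZMod 2)
  (x : Fin t → Fin n → ZMod 2) (JR : Fin n → Finset J), HlS sg w uU uJ N NJ x JR →
  C₀ * sz U ≤ (univ.filter fun k => uJ k = 1).card → (∀ r, C₀ * sz U ≤ (JR r).card) →
  |∑ ξ ∈ univ.filter (fun ξ : Tu K U J => Function.Surjective (Xf ξ) ∧ Sml N ξ),
      ∑ y ∈ RX (Xf ξ), sr (pr y (tg N ξ)) -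
    lim sg K * 2 ^ (Fintype.card J * Fintype.card (Ix K))| ≤
    ε * 2 ^ (Fintype.card J * Fintype.card (Ix K)) := by
  obtain ⟨k, hk⟩ : ∃ k : ℕ, k = Fintype.card (Ix K) := ⟨_, rfl⟩
  obtain ⟨ρ, hρ⟩ : ∃ ρ : ℝ, ρ = max (1 - (1 / 2) ^ k) (1 / 2) := ⟨_, rfl⟩
  have hρ1 : ρ < 1 := by
    rw [hρ]
    apply max_lt
    · have : (0 : ℝ) < (1 / 2) ^ k := by positivity
      linarith
    · norm_num
  have hρ0 : 0 ≤ ρ := by
    rw [hρ]
    exact le_max_of_le_right (by norm_num)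
  have hρa : 1 - (1 / 2 : ℝ) ^ k ≤ ρ := by
    rw [hρ]
    exact le_max_left _ _
  have hρb : (1 / 2 : ℝ) ≤ ρ := by
    rw [hρ]
    exact le_max_right _ _
  obtain ⟨cA, hcA⟩ : ∃ cA : ℝ, cA = ((Al (Ix K)).card : ℝ) := ⟨_, rfl⟩
  have hcA0 : 0 ≤ cA := by rw [hcA]; exact Nat.cast_nonneg _
  obtain ⟨c, hc⟩ : ∃ c : ℝ, c = 2 ^ k * cA * (2 ^ k + 2) + 1 := ⟨_, rfl⟩
  have hc0 : 0 < c := by rw [hc]; positivity
  obtain ⟨C₀, hC₀⟩ := exists_pow_lt_of_lt_one (show 0 < min 1 (ε / c) / 2 ^ k by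
    apply div_pos (lt_min one_pos (div_pos hε hc0)) (by positivity)) hρ1
  refine ⟨C₀, ?_⟩
  intro U _ J _ w uU uJ N NJ x JR H hV1 hV2
  obtain ⟨F, hF⟩ : ∃ F : Tu K U J → ℝ, F = fun ξ =>
    ∑ A ∈ Al (Ix K), ∑ c : Ix K → ZMod 2, sr (pr (fun q i => ∑ j, A i j * Xf ξ q j) (tg N ξ) +
      ∑ i, c i * ((sg i.1 + 1) * uf uU uJ ξ i)) := ⟨_, rfl⟩
  obtain ⟨β, hβ⟩ : ∃ β : ℝ, β = (Fintype.card (Bt K U) : ℝ) := ⟨_, rfl⟩
  have hβ0 : 0 < β := by
    rw [hβ]
    exact_mod_cast Fintype.card_pos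
  obtain ⟨V, hV⟩ : ∃ V : ℕ, V = C₀ * sz U := ⟨_, rfl⟩
  obtain ⟨m, hm⟩ : ∃ m : ℕ, m = Fintype.card J := ⟨_, rfl⟩
  have hVm : V ≤ m := by
    rw [hV, hm]
    exact hV1.trans (card_le_univ _)
  -- step 1
  have s1 : ∀ ξ : Tu K U J, Function.Surjective (Xf ξ) → Sml N ξ →
      ∑ y ∈ RX (Xf ξ), sr (pr y (tg N ξ)) = F ξ := by
    intro ξ h1 h2
    rw [par_sumS hPAR _ _ _ h1 (hROW t n K sg U J w uU uJ N NJ x JR H ξ h2), hF]
    beta_reduce
    exact sum_congr rfl fun A _ => sum_inst _ _ _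
  have s1' : ∑ ξ ∈ univ.filter (fun ξ : Tu K U J => Function.Surjective (Xf ξ) ∧ Sml N ξ),
      ∑ y ∈ RX (Xf ξ), sr (pr y (tg N ξ)) =
      ∑ ξ ∈ univ.filter (fun ξ : Tu K U J => Function.Surjective (Xf ξ) ∧ Sml N ξ), F ξ :=
    sum_congr rfl fun ξ hξ => s1 ξ (mem_filter.1 hξ).2.1 (mem_filter.1 hξ).2.2
  have hFb : ∀ ξ, |F ξ| ≤ 2 ^ k * cA := by
    intro ξ
    rw [hF]
    beta_reduce
    refine (abs_sum_le_sum_abs _ _).trans ?_
    refine (sum_le_sum fun A _ => abs_sum_le_sum_abs _ _).trans (le_of_eq ?_)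
    rw [sum_congr rfl fun A _ => sum_congr rfl fun c _ => abs_sr _]
    simp only [sum_const, card_univ, Fintype.card_fun, ZMod.card, nsmul_eq_mul, mul_one]
    rw [hcA, hk]
    push_cast
    ring
  -- step 2
  have s2 : |∑ ξ ∈ univ.filter (fun ξ : Tu K U J => Sml N ξ), F ξ -
      ∑ ξ ∈ univ.filter (fun ξ : Tu K U J => Function.Surjective (Xf ξ) ∧ Sml N ξ), F ξ| ≤
      (2 ^ k * (β * (2 ^ k - 1) ^ m)) * (2 ^ k * cA) := by
    have e1 : ∑ ξ ∈ univ.filter (fun ξ : Tu K U J => Sml N ξ), F ξ =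
        ∑ ξ ∈ univ.filter (fun ξ : Tu K U J => Function.Surjective (Xf ξ) ∧ Sml N ξ), F ξ +
        ∑ ξ ∈ univ.filter (fun ξ : Tu K U J => ¬ Function.Surjective (Xf ξ) ∧ Sml N ξ), F ξ := by
      rw [← sum_filter_add_sum_filter_not (univ.filter fun ξ : Tu K U J => Sml N ξ)
        (fun ξ => Function.Surjective (Xf ξ)), filter_filter, filter_filter]
      congr 1
      · refine sum_congr ?_ fun _ _ => rfl
        ext ξ
        simp only [mem_filter, and_comm]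
      · refine sum_congr ?_ fun _ _ => rfl
        ext ξ
        simp only [mem_filter, and_comm]
    rw [e1, add_sub_cancel_left]
    refine (abs_sum_le_sum_abs _ _).trans ?_
    refine (sum_le_sum fun ξ _ => hFb ξ).trans ?_
    rw [sum_const, nsmul_eq_mul]
    refine mul_le_mul_of_nonneg_right ?_ (by positivity)
    have h1 : (univ.filter fun ξ : Tu K U J => ¬ Function.Surjective (Xf ξ) ∧ Sml N ξ).card ≤
        (univ.filter fun ξ : Tu K U J => ¬ Function.Surjective (Xf ξ)).card :=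
      card_le_card fun ξ hξ => mem_filter.2 ⟨mem_univ _, (mem_filter.1 hξ).2.1⟩
    have h2 := h1.trans (card_nonsurj K U J)
    have h3 : ((univ.filter fun ξ : Tu K U J => ¬ Function.Surjective (Xf ξ) ∧
        Sml N ξ).card : ℝ) ≤ ((2 ^ Fintype.card (Ix K) *
        (Fintype.card (Bt K U) * (2 ^ Fintype.card (Ix K) - 1) ^ Fintype.card J) : ℕ) : ℝ) := by
      exact_mod_cast h2
    refine h3.trans (le_of_eq ?_)
    have h4 : ((2 ^ Fintype.card (Ix K) - 1 : ℕ) : ℝ) = 2 ^ k - 1 := by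
      rw [Nat.cast_sub Nat.one_le_two_pow, hk]
      push_cast
      rfl
    rw [Nat.cast_mul, Nat.cast_mul, Nat.cast_pow (2 ^ Fintype.card (Ix K) - 1), h4, ← hβ, ← hm,
      ← hk]
    push_cast
    rfl
  -- step 3
  have s3 : β * ∑ ξ ∈ univ.filter (fun ξ : Tu K U J => Sml N ξ), F ξ =
      ∑ A ∈ Al (Ix K), ∑ c : Ix K → ZMod 2, ∑ b : Bt K U, ∑ ξ : Tu K U J,
        sr (chS uU uJ N A b (fun i => c i * (sg i.1 + 1)) ξ) := by
    have e1 : ∀ ξ : Tu K U J, (if Sml N ξ then β * F ξ else 0) =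
        ∑ A ∈ Al (Ix K), ∑ c : Ix K → ZMod 2, ∑ b : Bt K U,
          sr (chS uU uJ N A b (fun i => c i * (sg i.1 + 1)) ξ) := by
      intro ξ
      have e2 := sum_Bt (K := K) (U := U) (fun l i v => Pool.Agent.L0h1.SJ.sq N ξ l i v)
      have e3 : ∑ A ∈ Al (Ix K), ∑ c : Ix K → ZMod 2, ∑ b : Bt K U,
            sr (chS uU uJ N A b (fun i => c i * (sg i.1 + 1)) ξ) =
          (∑ A ∈ Al (Ix K), ∑ c : Ix K → ZMod 2,
            sr (pr (fun q i => ∑ j, A i j * Xf ξ q j) (tg N ξ) +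
              ∑ i, c i * ((sg i.1 + 1) * uf uU uJ ξ i))) *
            ∑ b : Bt K U, sr (∑ l, ∑ i, ∑ v, b l i v * Pool.Agent.L0h1.SJ.sq N ξ l i v) := by
        rw [sum_mul]
        refine sum_congr rfl fun A _ => ?_
        rw [sum_mul_sum]
        refine sum_congr rfl fun c _ => sum_congr rfl fun b _ => ?_
        unfold chS ch
        rw [← sr_add]
        congr 1
        have : ∑ i, c i * (sg i.1 + 1) * uf uU uJ ξ i =
            ∑ i, c i * ((sg i.1 + 1) * uf uU uJ ξ i) :=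
          sum_congr rfl fun i _ => mul_assoc _ _ _
        rw [this]
        ring
      rw [e3, e2, hF, hβ]
      beta_reduce
      have e4 : Sml N ξ ↔ ∀ l i v, Pool.Agent.L0h1.SJ.sq N ξ l i v = 0 := Iff.rfl
      by_cases h : Sml N ξ
      · rw [if_pos h, if_pos (e4.1 h)]
        ring
      · rw [if_neg h, if_neg (fun h' => h (e4.2 h'))]
        ring
    rw [mul_sum, sum_filter, sum_congr rfl fun ξ _ => e1 ξ]
    rw [sum_comm]
    refine sum_congr rfl fun A _ => ?_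
    rw [sum_comm]
    refine sum_congr rfl fun c _ => ?_
    rw [sum_comm]
  have hTu : (Fintype.card (Tu K U J) : ℝ) = β * (2 ^ k) ^ m := by
    rw [card_Tu, hβ, hk, hm]
    push_cast
    rfl
  obtain ⟨L, hL⟩ : ∃ L : ℝ, L = lim sg K := ⟨_, rfl⟩
  have s4 : |∑ A ∈ Al (Ix K), ∑ c : Ix K → ZMod 2, ∑ b : Bt K U, ∑ ξ : Tu K U J,
        sr (chS uU uJ N A b (fun i => c i * (sg i.1 + 1)) ξ) -
      L * (β * (2 ^ k) ^ m)| ≤ cA * (2 ^ k * (β * (2 * (1 / 2) ^ V * (β * (2 ^ k) ^ m)))) := by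
    have e00 : ∀ ξ : Tu K U J, sr (chS uU uJ N 0 (0 : Bt K U) 0 ξ) = 1 := by
      intro ξ
      have h1 : chS uU uJ N 0 (0 : Bt K U) 0 ξ = 0 := by
        unfold chS ch pr
        have a1 : ∑ q, ∑ i, (∑ j, (0 : Ix K → Ix K → ZMod 2) i j * Xf ξ q j) * tg N ξ q i =
            0 := by
          refine sum_eq_zero fun q _ => sum_eq_zero fun i _ => ?_
          rw [sum_eq_zero fun j _ => zero_mul _, zero_mul]
        have a2 : ∑ l, ∑ i, ∑ v, (0 : Bt K U) l i v * Pool.Agent.L0h1.SJ.sq N ξ l i v = 0 :=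
          sum_eq_zero fun l _ => sum_eq_zero fun i _ => sum_eq_zero fun v _ => zero_mul _
        have a3 : ∑ i, (0 : Ix K → ZMod 2) i * uf uU uJ ξ i = 0 :=
          sum_eq_zero fun i _ => zero_mul _
        rw [a2, add_zero, a3, add_zero]
        exact a1
      rw [h1, sr_zero]
    have e0 : ∑ c : Ix K → ZMod 2, ∑ b : Bt K U, ∑ ξ : Tu K U J,
        sr (chS uU uJ N 0 b (fun i => c i * (sg i.1 + 1)) ξ) = L * (β * (2 ^ k) ^ m) := by
      have e1 : ∀ c : Ix K → ZMod 2, ∑ b : Bt K U, ∑ ξ : Tu K U J,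
          sr (chS uU uJ N 0 b (fun i => c i * (sg i.1 + 1)) ξ) =
          if (fun i => c i * (sg i.1 + 1)) = 0 then β * (2 ^ k) ^ m else 0 := by
        intro c
        split_ifs with hc'
        · rw [Fintype.sum_eq_single (0 : Bt K U)]
          · rw [hc', sum_congr rfl fun ξ _ => e00 ξ, sum_const, card_univ, nsmul_eq_mul, mul_one,
              hTu]
          · intro b hb
            exact hC0 t n K sg U J w uU uJ N NJ x JR H b _ (Or.inl hb)
        · exact sum_eq_zero fun b _ => hC0 t n K sg U J w uU uJ N NJ x JR H b _ (Or.inr hc')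
      rw [sum_congr rfl fun c _ => e1 c, ← sum_filter, sum_const, nsmul_eq_mul, hL,
        ← card_lim K sg]
    have e1 : ∑ A ∈ Al (Ix K), ∑ c : Ix K → ZMod 2, ∑ b : Bt K U, ∑ ξ : Tu K U J,
          sr (chS uU uJ N A b (fun i => c i * (sg i.1 + 1)) ξ) -
        L * (β * (2 ^ k) ^ m) = ∑ A ∈ (Al (Ix K)).erase 0, ∑ c : Ix K → ZMod 2, ∑ b : Bt K U,
          ∑ ξ : Tu K U J, sr (chS uU uJ N A b (fun i => c i * (sg i.1 + 1)) ξ) := by
      rw [← add_sum_erase _ _ (zero_mem_Al (Ix K)), e0]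
      ring
    rw [e1]
    refine (abs_sum_le_sum_abs _ _).trans ?_
    have e2 : ∀ A ∈ (Al (Ix K)).erase 0, |∑ c : Ix K → ZMod 2, ∑ b : Bt K U, ∑ ξ : Tu K U J,
          sr (chS uU uJ N A b (fun i => c i * (sg i.1 + 1)) ξ)| ≤
        2 ^ k * (β * (2 * (1 / 2) ^ V * (β * (2 ^ k) ^ m))) := by
      intro A hA
      obtain ⟨a1, a2⟩ := mem_erase.1 hA
      refine (abs_sum_le_sum_abs _ _).trans ?_
      have e3 : ∀ c : Ix K → ZMod 2, |∑ b : Bt K U, ∑ ξ : Tu K U J,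
          sr (chS uU uJ N A b (fun i => c i * (sg i.1 + 1)) ξ)| ≤
          β * (2 * (1 / 2) ^ V * (β * (2 ^ k) ^ m)) := by
        intro c
        refine (abs_sum_le_sum_abs _ _).trans ?_
        refine (sum_le_sum fun b _ => hC1 t n K sg U J w uU uJ N NJ x JR H V
          (by rw [hV]; exact hV1) (fun r => by rw [hV]; exact hV2 r) A a2 a1 b _).trans
          (le_of_eq ?_)
        rw [sum_const, card_univ, nsmul_eq_mul, hTu, hβ]
      refine (sum_le_sum fun c _ => e3 c).trans (le_of_eq ?_)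
      rw [sum_const, card_univ, Fintype.card_fun, ZMod.card, nsmul_eq_mul, hk]
      push_cast
      rfl
    refine (sum_le_sum e2).trans ?_
    rw [sum_const, nsmul_eq_mul]
    refine mul_le_mul_of_nonneg_right ?_ (by positivity)
    rw [hcA]
    exact_mod_cast card_le_card (erase_subset _ _)
  have s5 : |∑ ξ ∈ univ.filter (fun ξ : Tu K U J => Sml N ξ), F ξ - L * (2 ^ k) ^ m| ≤
      2 ^ k * (cA * (2 * (1 / 2) ^ V * (β * (2 ^ k) ^ m))) := by
    have e1 : β * (∑ ξ ∈ univ.filter (fun ξ : Tu K U J => Sml N ξ), F ξ - L * (2 ^ k) ^ m) =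
        ∑ A ∈ Al (Ix K), ∑ c : Ix K → ZMod 2, ∑ b : Bt K U, ∑ ξ : Tu K U J,
          sr (chS uU uJ N A b (fun i => c i * (sg i.1 + 1)) ξ) - L * (β * (2 ^ k) ^ m) := by
      rw [mul_sub, s3]
      ring
    have e2 := congrArg abs e1
    rw [abs_mul, abs_of_pos hβ0] at e2
    have e3 : β * |∑ ξ ∈ univ.filter (fun ξ : Tu K U J => Sml N ξ), F ξ - L * (2 ^ k) ^ m| ≤
        β * (2 ^ k * (cA * (2 * (1 / 2) ^ V * (β * (2 ^ k) ^ m)))) := by
      rw [e2]
      calc _ ≤ cA * (2 ^ k * (β * (2 * (1 / 2) ^ V * (β * (2 ^ k) ^ m)))) := s4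
        _ = _ := by ring
    exact le_of_mul_le_mul_left e3 hβ0
  -- the numerical part
  have hβb : β ≤ (2 ^ k) ^ sz U := by
    rw [hβ, hk]
    exact_mod_cast card_Bt K U
  have hsz : 1 ≤ sz U := by
    unfold sz
    omega
  have n1 : ((2 : ℝ) ^ k - 1) ^ m ≤ (2 ^ k) ^ m * ρ ^ V := by
    have e1 : (2 : ℝ) ^ k - 1 = 2 ^ k * (1 - (1 / 2) ^ k) := by
      rw [mul_sub, ← mul_pow]
      norm_num
    rw [e1, mul_pow]
    refine mul_le_mul_of_nonneg_left ?_ (by positivity)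
    have h0 : (0 : ℝ) ≤ 1 - (1 / 2) ^ k := by
      have : (1 / 2 : ℝ) ^ k ≤ 1 := pow_le_one₀ (by norm_num) (by norm_num)
      linarith
    exact (pow_le_pow_left₀ h0 hρa m).trans (pow_le_pow_of_le_one hρ0 hρ1.le hVm)
  have n2 : (1 / 2 : ℝ) ^ V ≤ ρ ^ V := pow_le_pow_left₀ (by norm_num) hρb V
  have n3 : β * ρ ^ V ≤ ε / c := by
    have h1 : ρ ^ V = (ρ ^ C₀) ^ sz U := by
      rw [hV, pow_mul]
    have h2 : 2 ^ k * ρ ^ C₀ ≤ min 1 (ε / c) := by
      rw [lt_div_iff₀ (by positivity)] at hC₀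
      linarith
    calc β * ρ ^ V ≤ (2 ^ k) ^ sz U * (ρ ^ C₀) ^ sz U := by
          rw [h1]
          exact mul_le_mul_of_nonneg_right hβb (by positivity)
      _ = (2 ^ k * ρ ^ C₀) ^ sz U := by rw [mul_pow]
      _ ≤ (2 ^ k * ρ ^ C₀) ^ 1 := by
          apply pow_le_pow_of_le_one (by positivity) (h2.trans (min_le_left _ _)) hsz
      _ ≤ ε / c := by
          rw [pow_one]
          exact h2.trans (min_le_right _ _)
  have hJk : (2 : ℝ) ^ (Fintype.card J * Fintype.card (Ix K)) = (2 ^ k) ^ m := by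
    rw [hk, hm, ← pow_mul, mul_comm]
  rw [s1', ← hL, hJk]
  have hfin : |∑ ξ ∈ univ.filter (fun ξ : Tu K U J => Function.Surjective (Xf ξ) ∧ Sml N ξ), F ξ -
      L * (2 ^ k) ^ m| ≤ (2 ^ k * (β * (2 ^ k - 1) ^ m)) * (2 ^ k * cA) +
        2 ^ k * (cA * (2 * (1 / 2) ^ V * (β * (2 ^ k) ^ m))) := by
    have a1 := abs_le.1 s2
    have a2 := abs_le.1 s5
    rw [abs_le]
    constructor <;> linarith [a1.1, a1.2, a2.1, a2.2]
  refine hfin.trans ?_
  have b1 : (2 ^ k * (β * (2 ^ k - 1) ^ m)) * (2 ^ k * cA) ≤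
      2 ^ k * cA * 2 ^ k * (β * ρ ^ V) * (2 ^ k) ^ m := by
    have : β * (2 ^ k - 1) ^ m ≤ β * ((2 ^ k) ^ m * ρ ^ V) := mul_le_mul_of_nonneg_left n1 hβ0.le
    calc (2 ^ k * (β * (2 ^ k - 1) ^ m)) * (2 ^ k * cA)
        ≤ (2 ^ k * (β * ((2 ^ k) ^ m * ρ ^ V))) * (2 ^ k * cA) :=
          mul_le_mul_of_nonneg_right (mul_le_mul_of_nonneg_left this (by positivity))
            (by positivity)
      _ = _ := by ring
  have b2 : 2 ^ k * (cA * (2 * (1 / 2) ^ V * (β * (2 ^ k) ^ m))) ≤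
      2 ^ k * cA * 2 * (β * ρ ^ V) * (2 ^ k) ^ m := by
    calc 2 ^ k * (cA * (2 * (1 / 2) ^ V * (β * (2 ^ k) ^ m)))
        = (2 ^ k * cA * 2 * β * (2 ^ k) ^ m) * (1 / 2) ^ V := by ring
      _ ≤ (2 ^ k * cA * 2 * β * (2 ^ k) ^ m) * ρ ^ V :=
          mul_le_mul_of_nonneg_left n2 (by positivity)
      _ = _ := by ring
  have b3 : 2 ^ k * cA * 2 ^ k * (β * ρ ^ V) * (2 ^ k) ^ m +
      2 ^ k * cA * 2 * (β * ρ ^ V) * (2 ^ k) ^ m =
      (2 ^ k * cA * (2 ^ k + 2)) * (β * ρ ^ V) * (2 ^ k) ^ m := by ring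
  have b4 : (2 ^ k * cA * (2 ^ k + 2)) * (β * ρ ^ V) ≤ ε := by
    have h1 : 0 ≤ β * ρ ^ V := by positivity
    have h2 : (2 ^ k * cA * (2 ^ k + 2)) ≤ c := by
      rw [hc]
      linarith
    calc (2 ^ k * cA * (2 ^ k + 2)) * (β * ρ ^ V) ≤ c * (ε / c) :=
          mul_le_mul h2 n3 h1 hc0.le
      _ = ε := by field_simp
  have b5 := mul_le_mul_of_nonneg_right b4 (show (0 : ℝ) ≤ (2 ^ k) ^ m by positivity)
  linarith

theorem t_MNCS : S_PAR → S_ROWS → S_CH0S → S_CH1S → S_MNCS := by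
  intro hPAR hROW hC0 hC1 t n K sg ε hε
  obtain ⟨C₀, h⟩ := core hPAR hROW hC0 hC1 t n K sg ε hε
  refine ⟨C₀, ?_⟩
  intro U _ J _ _ w uU uJ N NJ x JR H hV1 hV2
  have h1 := h U J w uU uJ N NJ x JR H hV1 hV2
  exact inst_free _ _ _ _ _ _ _ _ h1

end Pool.Agent.L0h51.JQ
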