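import Pool.Agent.L0h86.JQ.StmA
import Pool.Agent.L0h71.SJ.Row

/-! # JQ, module ROWS: the relation of the rows -/

set_option autoImplicit false

open scoped Classical

namespace Pool.Agent.L0h51.JQ

open Finset Pool.Agent.L0h1.SJ Pool.Agent.L0h86.JQ
open Pool.Agent.L0h71.SJ (z2_self z2_sq z2_eq sum_symm)

theorem row_sumS {V : Type} [Fintype V] (w u x : V → ZMod 2) (N : V → V → ZMod 2) (s : ZMod 2)
    (hu : ∑ v, u v = s) (hrc : ∀ i j, i ≠ j → w i * N i j + w j * N j i = u i * u j) :
    ∑ q, w q * ∑ p, (x p + x q) * N q p = (s + 1) * ∑ v, u v * x v := by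
  have h1 := sum_symm (fun q p => w q * ((x p + x q) * N q p) + x p * u p * u q) (by
    intro p q
    by_cases hpq : p = q
    · rw [hpq]
    · apply z2_eq
      have h2 := hrc p q hpq
      have h3 : (w p * ((x q + x p) * N p q) + x q * u q * u p) +
          (w q * ((x p + x q) * N q p) + x p * u p * u q) =
          (x p + x q) * (w p * N p q + w q * N q p) + (x p + x q) * (u p * u q) := by ring
      rw [h3, h2, z2_self])
  have h4 : ∀ q, (w q * ((x q + x q) * N q q) + x q * u q * u q) = u q * x q := by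
    intro q
    rw [z2_self, zero_mul, mul_zero, zero_add, mul_assoc, z2_sq, mul_comm]
  simp only [h4] at h1
  have h5 : ∑ q, ∑ p, (w q * ((x p + x q) * N q p) + x p * u p * u q) =
      ∑ q, w q * ∑ p, (x p + x q) * N q p + (∑ q, u q * x q) * s := by
    simp_rw [Finset.sum_add_distrib, ← Finset.sum_mul, ← Finset.mul_sum]
    rw [hu]
    congr 2
    exact Finset.sum_congr rfl fun q _ => mul_comm _ _
  rw [h5] at h1
  have h6 : ∀ a b c : ZMod 2, a + b * c = b → a = (c + 1) * b := by decide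
  exact h6 _ _ _ h1

theorem t_ROWS : S_ROWS := by
  intro t n K sg U _ J _ w uU uJ N NJ x JR hl ξ hs i
  obtain ⟨l, i⟩ := i
  have h1 := row_sumS (w l) (Sum.elim (uU l) uJ) (ξ l i) (N l) (sg l) (by
    rw [Fintype.sum_sum_type]
    simp only [Sum.elim_inl, Sum.elim_inr]
    exact hl.su l) (hl.rc l)
  rw [Fintype.sum_sum_type, Fintype.sum_sum_type] at h1
  have h2 : ∑ v, w l (Sum.inl v) * ∑ p, (ξ l i p + ξ l i (Sum.inl v)) * N l (Sum.inl v) p = 0 := by
    refine Finset.sum_eq_zero fun v _ => ?_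
    have := hs l i v
    unfold L0h1.SJ.sq at this
    rw [this, mul_zero]
  rw [h2, zero_add] at h1
  simp only [Sum.elim_inl, Sum.elim_inr] at h1
  unfold uf
  rw [← h1]
  refine Finset.sum_congr rfl fun q _ => ?_
  rw [hl.w1, one_mul]
  rfl

end Pool.Agent.L0h51.JQ
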